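import Mathlib
import Pool.Agent.Q212.DB3

/-!
# Pointwise optimality of the disagreement bound `2x/(1+x)`
-/

namespace Pool.Agent.Results.MP_fe4852_pr.PointwiseOptimal

open Pool.Agent.Q212.DB

/-- Every disagreement bound `f` satisfies `f x ≥ 2x/(1+x)` for all `x ∈ [0,1]`. -/
theorem result : ∀ f : ℝ → ℝ, IsDisagreementBound f →
    ∀ x ∈ Set.Icc (0 : ℝ) 1, 2 * x / (1 + x) ≤ f x :=
  fun _ hf _ hx => bound_ge hf hx

end Pool.Agent.Results.MP_fe4852_pr.PointwiseOptimal
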